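import Pool.Agent.Helper51.SDL.Goals
import Pool.Agent.Helper13.REC.HHER

/-!
# Packet SDL-HER: the Herbrand quotient for a cyclic group of prime power order

The Prop `S_HER` of project SD (MP_fc6b1e_nt), proved from `S_HQE` and `S_HQC`.
-/

set_option autoImplicit false

namespace Pool.Agent.Helper96.SDL.HER

open Module Pool.Agent.Helper51.REC Pool.Agent.Helper13.REC Pool.Agent.Helper51.SDL

/-- Additivity of the rank for a subgroup. -/
theorem rank_sub {A B : Type} [CommGroup A] [CommGroup B] [Module.Finite ℤ (Additive A)]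
    (f : A →* B) (H : Subgroup A) :
    finrank ℤ (Additive (H.map f)) + finrank ℤ (Additive (H ⊓ f.ker : Subgroup A)) =
      finrank ℤ (Additive H) := by
  have := fin_sub H
  have h1 := rank_add (f.comp H.subtype)
  have h2 : (f.comp H.subtype).range = H.map f := by
    ext x
    constructor
    · rintro ⟨y, rfl⟩
      exact ⟨y, y.2, rfl⟩
    · rintro ⟨y, hy, rfl⟩
      exact ⟨⟨y, hy⟩, rfl⟩
  let e : (f.comp H.subtype).ker ≃* (H ⊓ f.ker : Subgroup A) :=
    { toFun := fun x => ⟨x.1.1, x.1.2, x.2⟩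
      invFun := fun x => ⟨⟨x.1, x.2.1⟩, x.2.2⟩
      left_inv := fun x => rfl
      right_inv := fun x => rfl
      map_mul' := fun x y => rfl }
  have h3 : finrank ℤ (Additive (f.comp H.subtype).ker) =
      finrank ℤ (Additive (H ⊓ f.ker : Subgroup A)) :=
    (MulEquiv.toAdditive e).toIntLinearEquiv.finrank_eq
  rw [h2, h3] at h1
  exact h1

section

variable {M : Type} [CommGroup M] (σ : M ≃* M)

theorem pow_fix {x : M} {m : ℕ} (hx : (σ ^ m : MulAut M) x = x) (j : ℕ) :
    (σ ^ (m * j) : MulAut M) x = x := by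
  induction j with
  | zero => rfl
  | succ j ih =>
    rw [Nat.mul_succ, pow_add, MulAut.mul_apply, hx, ih]

theorem fix_le {m l : ℕ} (h : m ∣ l) :
    fixG (σ ^ m : MulAut M) ≤ fixG (σ ^ l : MulAut M) := by
  obtain ⟨j, rfl⟩ := h
  intro x hx
  exact pow_fix σ hx j

theorem ker_df : (dfG σ).ker = fixG σ := by
  ext x
  rw [MonoidHom.mem_ker, df_apply, mem_fix, div_eq_one]
  exact eq_comm

theorem sig_comm (m : ℕ) (x : M) : (σ ^ m : MulAut M) (σ x) = σ ((σ ^ m : MulAut M) x) := by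
  have : (σ ^ m * σ : MulAut M) x = (σ * σ ^ m : MulAut M) x := by
    rw [← pow_succ, ← pow_succ']
  exact this

theorem sig_pow_comm (m l : ℕ) (x : M) :
    (σ ^ m : MulAut M) ((σ ^ l : MulAut M) x) = (σ ^ l : MulAut M) ((σ ^ m : MulAut M) x) := by
  have : (σ ^ m * σ ^ l : MulAut M) x = (σ ^ l * σ ^ m : MulAut M) x := by
    rw [← pow_add, ← pow_add, add_comm]
  exact this

theorem nm_pow {n : ℕ} (hσ : ∀ x, (σ ^ n : MulAut M) x = x) (m : ℕ) (x : M) :
    nmG n σ ((σ ^ m : MulAut M) x) = nmG n σ x := by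
  induction m generalizing x with
  | zero => rfl
  | succ m ih =>
    rw [pow_succ, MulAut.mul_apply]
    show nmG n σ ((σ ^ m : MulAut M) (σ x)) = _
    rw [ih, nm_sigma σ n hσ]

end

/-- The step of the filtration. -/
theorem quot (h1 : S_HQE) (h2 : S_HQC) (p : ℕ) [hp : Fact p.Prime] (k r : ℕ) (M : Type)
    [CommGroup M] [Group.FG M] (σ : M ≃* M)
    (hσ : ∀ x, (σ ^ (p ^ k) : MulAut M) x = x)
    (hr : ∀ i, i ≤ k → finrank ℤ (Additive (fixG (σ ^ (p ^ i) : MulAut M))) + 1 = r * p ^ i)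
    (i : ℕ) (hi : i ≤ k) :
    ((fixG (σ ^ (p ^ i) : MulAut M) ⊓ (nmG (p ^ k) σ).ker).map (dfG σ)).relIndex
        (fixG (σ ^ (p ^ i) : MulAut M) ⊓ (nmG (p ^ k) σ).ker) ≠ 0 ∧
    Finite (fixG (σ ^ (p ^ i) : MulAut M) ⊓ (nmG (p ^ k) σ).ker ⊓ (dfG σ).ker : Subgroup M) ∧
    ((fixG (σ ^ (p ^ i) : MulAut M) ⊓ (nmG (p ^ k) σ).ker).map (dfG σ)).relIndex
        (fixG (σ ^ (p ^ i) : MulAut M) ⊓ (nmG (p ^ k) σ).ker) =
      p ^ (r * i) *
        Nat.card (fixG (σ ^ (p ^ i) : MulAut M) ⊓ (nmG (p ^ k) σ).ker ⊓ (dfG σ).ker : Subgroup M) := by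
  have hp0 := hp.out.pos
  have hn0 : p ^ k ≠ 0 := (pow_pos hp0 k).ne'
  have hfin : Module.Finite ℤ (Additive M) := by
    rw [Module.Finite.iff_addGroup_fg]
    infer_instance
  have hfix1 : fixG (σ ^ (p ^ 0) : MulAut M) = fixG σ := by
    rw [pow_zero, pow_one]
  have hfixle : ∀ j, fixG σ ≤ fixG (σ ^ (p ^ j) : MulAut M) := by
    intro j
    rw [← hfix1]
    exact fix_le σ (pow_dvd_pow p (Nat.zero_le j))
  -- ranks
  have hrB : ∀ j, j ≤ k →
      finrank ℤ (Additive (fixG (σ ^ (p ^ j) : MulAut M) ⊓ (nmG (p ^ k) σ).ker : Subgroup M)) + r =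
        r * p ^ j := by
    intro j hj
    have a1 := rank_sub (nmG (p ^ k) σ) (fixG (σ ^ (p ^ j) : MulAut M))
    have a2 := rank_eq ((fixG (σ ^ (p ^ j) : MulAut M)).map (nmG (p ^ k) σ)) (fixG σ) (by
      rintro _ ⟨x, _, rfl⟩
      exact sigma_nm σ (p ^ k) hσ x) hn0 (fun x hx => ⟨x, hfixle j hx, nm_of_fix σ (p ^ k) hx⟩)
    have a3 := hr j hj
    have a4 := hr 0 (Nat.zero_le k)
    rw [hfix1, pow_zero, mul_one] at a4
    omega
  induction i with
  | zero =>
    have hB : fixG (σ ^ (p ^ 0) : MulAut M) ⊓ (nmG (p ^ k) σ).ker ⊓ (dfG σ).ker =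
        fixG (σ ^ (p ^ 0) : MulAut M) ⊓ (nmG (p ^ k) σ).ker := by
      rw [ker_df, hfix1]
      exact le_antisymm inf_le_left (le_inf le_rfl inf_le_left)
    have hmap : (fixG (σ ^ (p ^ 0) : MulAut M) ⊓ (nmG (p ^ k) σ).ker).map (dfG σ) = ⊥ := by
      rw [Subgroup.map_eq_bot_iff, ker_df, hfix1]
      exact inf_le_left
    have hfinB : Finite (fixG (σ ^ (p ^ 0) : MulAut M) ⊓ (nmG (p ^ k) σ).ker : Subgroup M) := by
      have := fin_sub (fixG σ)
      obtain ⟨_, a2⟩ := pow_index (fixG σ) hn0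
      refine Finite.of_injective (β := (powMonoidHom (p ^ k) : fixG σ →* fixG σ).ker)
        (fun x => ⟨⟨x.1, hfix1.le x.2.1⟩, ?_⟩) ?_
      · have hx1 : σ x.1 = x.1 := by
          exact hfix1.le x.2.1
        have hx2 : nmG (p ^ k) σ x.1 = 1 := x.2.2
        rw [nm_of_fix σ (p ^ k) hx1] at hx2
        exact Subtype.ext hx2
      · intro x y hxy
        have := congrArg (fun z => ((z : fixG σ) : M)) (congrArg Subtype.val hxy)
        exact Subtype.ext this
    rw [hB, hmap, Subgroup.relIndex_bot_left, mul_zero]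
    exact ⟨Nat.card_pos.ne', hfinB, by rw [pow_zero p, one_mul]⟩
  | succ i ih =>
    obtain ⟨q1, q2, q3⟩ := ih (by omega)
    set H : Subgroup M := fixG (σ ^ (p ^ (i + 1)) : MulAut M) ⊓ (nmG (p ^ k) σ).ker with hH
    set K : Subgroup M := fixG (σ ^ (p ^ i) : MulAut M) ⊓ (nmG (p ^ k) σ).ker with hK
    set g : M →* M := dfG (σ ^ (p ^ i) : MulAut M) with hg
    have hgap : ∀ x, g x = x / (σ ^ (p ^ i) : MulAut M) x := fun x => rfl
    have hKer : H ⊓ g.ker = K := by
      have e1 : g.ker = fixG (σ ^ (p ^ i) : MulAut M) := ker_df _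
      rw [e1, hH, hK]
      apply le_antisymm
      · exact le_inf inf_le_right (inf_le_left.trans inf_le_right)
      · refine le_inf (le_inf (inf_le_left.trans ?_) inf_le_right) inf_le_left
        exact fix_le σ (pow_dvd_pow p (Nat.le_succ i))
    -- stability of H
    have hHs : ∀ x ∈ H, ∀ m : ℕ, (σ ^ m : MulAut M) x ∈ H := by
      intro x hx m
      refine ⟨?_, ?_⟩
      · show (σ ^ (p ^ (i + 1)) : MulAut M) ((σ ^ m : MulAut M) x) = (σ ^ m : MulAut M) x
        rw [sig_pow_comm]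
        exact congrArg _ hx.1
      · show nmG (p ^ k) σ ((σ ^ m : MulAut M) x) = 1
        rw [nm_pow σ hσ]
        exact hx.2
    have hHs1 : ∀ x ∈ H, σ x ∈ H := by
      intro x hx
      have := hHs x hx 1
      rw [pow_one] at this
      exact this
    have hcomm : ∀ x, dfG σ (g x) = g (dfG σ x) := by
      intro x
      rw [hgap, hgap, df_apply, df_apply, map_div, map_div, sig_comm]
      simp only [div_eq_mul_inv, mul_inv, inv_inv]
      simp only [mul_assoc, mul_comm, mul_left_comm]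
    have hDH : H.map (dfG σ) ≤ H := by
      rintro _ ⟨x, hx, rfl⟩
      rw [df_apply]
      exact H.div_mem hx (hHs1 x hx)
    have hgH : H.map g ≤ H := by
      rintro _ ⟨x, hx, rfl⟩
      rw [hgap]
      exact H.div_mem hx (hHs x hx _)
    -- the group J
    have hJ1 : ∀ x ∈ H.map g, σ x ∈ H.map g := by
      rintro _ ⟨x, hx, rfl⟩
      refine ⟨σ x, hHs1 x hx, ?_⟩
      rw [hgap, hgap, map_div, sig_comm]
    have hJ2 : ∀ x ∈ H.map g, (σ ^ (p ^ (i + 1)) : MulAut M) x = x := fun x hx => (hgH hx).1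
    have hJ3 : ∀ x ∈ H.map g, ∏ j ∈ Finset.range p, (σ ^ (j * p ^ i) : MulAut M) x = 1 := by
      rintro _ ⟨x, hx, rfl⟩
      have e1 : ∀ j : ℕ, (σ ^ (j * p ^ i) : MulAut M) (g x) =
          (σ ^ (j * p ^ i) : MulAut M) x / (σ ^ ((j + 1) * p ^ i) : MulAut M) x := by
        intro j
        rw [hgap, map_div]
        congr 1
        rw [Nat.add_mul, one_mul, pow_add, MulAut.mul_apply]
      rw [Finset.prod_congr rfl (fun j _ => e1 j)]
      rw [Finset.prod_range_div' (fun j => (σ ^ (j * p ^ i) : MulAut M) x) p]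
      have e2 : (σ ^ (p * p ^ i) : MulAut M) x = x := by
        rw [← pow_succ']
        exact hx.1
      show (σ ^ (0 * p ^ i) : MulAut M) x / (σ ^ (p * p ^ i) : MulAut M) x = 1
      rw [e2, zero_mul, pow_zero]
      exact div_self' x
    obtain ⟨c1, c2, c3⟩ := h2 p i M σ (H.map g) hJ1 hJ2 hJ3
    have hrJ : finrank ℤ (Additive (H.map g)) = r * (p ^ i * (p - 1)) := by
      have a1 := rank_sub g H
      rw [hKer] at a1
      have a2 := hrB (i + 1) hi
      have a3 := hrB i (by omega)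
      rw [← hH] at a2
      rw [← hK] at a3
      obtain ⟨q, rfl⟩ : ∃ q, p = q + 1 := ⟨p - 1, by omega⟩
      simp only [Nat.add_sub_cancel]
      have a4 : r * (q + 1) ^ (i + 1) = r * ((q + 1) ^ i * q) + r * (q + 1) ^ i := by ring
      omega
    have hφ : p ^ i * (p - 1) ≠ 0 :=
      Nat.mul_ne_zero (pow_pos hp0 i).ne' (by have := hp.out.two_le; omega)
    have c4 : ((H.map g).map (dfG σ)).relIndex (H.map g) =
        p ^ r * Nat.card (H.map g ⊓ (dfG σ).ker : Subgroup M) := by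
      apply Nat.pow_left_injective hφ
      show _ ^ (p ^ i * (p - 1)) = _ ^ (p ^ i * (p - 1))
      rw [c3, hrJ, mul_pow, ← pow_mul]
    obtain ⟨d1, d2, d3⟩ := h1 M (dfG σ) g H hcomm hDH hgH (by rw [hKer]; exact q1)
      (by rw [hKer]; exact q2) c1 c2
    refine ⟨d1, d2, ?_⟩
    rw [hKer, q3, c4] at d3
    have hpos : 0 < Nat.card (K ⊓ (dfG σ).ker : Subgroup M) *
        Nat.card (H.map g ⊓ (dfG σ).ker : Subgroup M) :=
      Nat.mul_pos Nat.card_pos Nat.card_pos
    apply Nat.eq_of_mul_eq_mul_right hpos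
    rw [d3]
    ring

theorem t (h1 : S_HQE) (h2 : S_HQC) : Pool.Agent.Helper51.SDL.S_HER := by
  intro p hp k r M _ _ σ hσ hr
  have hp0 := hp.out.pos
  have hn0 : p ^ k ≠ 0 := (pow_pos hp0 k).ne'
  have hfin : Module.Finite ℤ (Additive M) := by
    rw [Module.Finite.iff_addGroup_fg]
    infer_instance
  have hNF : (nmG (p ^ k) σ).range ≤ fixG σ := by
    rintro _ ⟨x, rfl⟩
    exact sigma_nm σ (p ^ k) hσ x
  have hDB : (dfG σ).range ≤ (nmG (p ^ k) σ).ker := by
    rintro _ ⟨x, rfl⟩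
    rw [MonoidHom.mem_ker, df_apply, map_div, nm_sigma σ (p ^ k) hσ, div_self']
  have hDk := ker_df σ
  have := fin_sub (fixG σ)
  have := fin_sub (nmG (p ^ k) σ).ker
  have hr0 : finrank ℤ (Additive (fixG σ)) + 1 = r := by
    have a4 := hr 0 (Nat.zero_le k)
    rw [pow_zero, pow_one, mul_one] at a4
    exact a4
  -- the power map on the fixed elements
  obtain ⟨a1, a2⟩ := pow_index (fixG σ) hn0
  have e1 : ((fixG σ).map (nmG (p ^ k) σ)).relIndex (fixG σ) =
      (powMonoidHom (p ^ k) : fixG σ →* fixG σ).range.index := by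
    show (((fixG σ).map (nmG (p ^ k) σ)).subgroupOf (fixG σ)).index = _
    congr 1
    ext x
    rw [Subgroup.mem_subgroupOf]
    constructor
    · rintro ⟨y, hy, hyx⟩
      rw [nm_of_fix σ (p ^ k) hy] at hyx
      exact ⟨⟨y, hy⟩, Subtype.ext hyx⟩
    · rintro ⟨y, hy⟩
      refine ⟨(y : M), y.2, ?_⟩
      rw [nm_of_fix σ (p ^ k) y.2]
      exact congrArg Subtype.val hy
  have hle1 : (fixG σ).map (nmG (p ^ k) σ) ≤ (nmG (p ^ k) σ).range := by
    rintro _ ⟨y, _, rfl⟩
    exact ⟨y, rfl⟩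
  have e2 : ((fixG σ).map (nmG (p ^ k) σ)).relIndex (nmG (p ^ k) σ).range =
      (fixG σ ⊔ (nmG (p ^ k) σ).ker).index := by
    rw [MonoidHom.range_eq_map, Subgroup.relIndex_map_map, top_sup_eq, Subgroup.relIndex_top_right]
  have e3 := Subgroup.relIndex_mul_relIndex _ _ _ hle1 hNF
  rw [e1, e2, a1] at e3
  -- the map `1 - σ` on the kernel of the norm
  have hk : fixG (σ ^ (p ^ k) : MulAut M) ⊓ (nmG (p ^ k) σ).ker = (nmG (p ^ k) σ).ker :=
    le_antisymm inf_le_right (le_inf (fun x _ => hσ x) le_rfl)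
  obtain ⟨b1, b2, b3⟩ := quot h1 h2 p k r M σ hσ hr k le_rfl
  rw [hk] at b1 b2 b3
  have hle2 : (nmG (p ^ k) σ).ker.map (dfG σ) ≤ (dfG σ).range := by
    rintro _ ⟨y, _, rfl⟩
    exact ⟨y, rfl⟩
  have f2 : ((nmG (p ^ k) σ).ker.map (dfG σ)).relIndex (dfG σ).range =
      (fixG σ ⊔ (nmG (p ^ k) σ).ker).index := by
    rw [MonoidHom.range_eq_map, Subgroup.relIndex_map_map, top_sup_eq,
      Subgroup.relIndex_top_right, hDk, sup_comm]
  have f3 := Subgroup.relIndex_mul_relIndex _ _ _ hle2 hDB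
  rw [f2, b3] at f3
  -- the two kernels have the same number of elements
  have hcard : Nat.card ((nmG (p ^ k) σ).ker ⊓ (dfG σ).ker : Subgroup M) =
      Nat.card (powMonoidHom (p ^ k) : fixG σ →* fixG σ).ker := by
    apply Nat.card_congr
    exact
      { toFun := fun x => ⟨⟨(x : M), by
          exact hDk.le x.2.2⟩, by
          have h3 : (x : M) ∈ fixG σ := hDk.le x.2.2
          have h4 := nm_of_fix σ (p ^ k) h3
          have h5 : nmG (p ^ k) σ (x : M) = 1 := x.2.1
          rw [h5] at h4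
          exact Subtype.ext h4.symm⟩
        invFun := fun x => ⟨((x : fixG σ) : M), by
          show nmG (p ^ k) σ ((x : fixG σ) : M) = 1
          rw [nm_of_fix σ (p ^ k) x.1.2]
          exact congrArg Subtype.val x.2, by
          rw [hDk]
          exact x.1.2⟩
        left_inv := fun x => rfl
        right_inv := fun x => rfl }
  rw [hcard] at f3
  have hc0 : 0 < Nat.card (powMonoidHom (p ^ k) : fixG σ →* fixG σ).ker := Nat.card_pos
  have hpn : 0 < (p ^ k) ^ finrank ℤ (Additive (fixG σ)) *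
      Nat.card (powMonoidHom (p ^ k) : fixG σ →* fixG σ).ker := by positivity
  have hm0 : 0 < (fixG σ ⊔ (nmG (p ^ k) σ).ker).index := by
    rw [← e3] at hpn
    exact Nat.pos_of_mul_pos_right hpn
  refine ⟨?_, ?_⟩
  · intro h0
    rw [h0, mul_zero] at e3
    omega
  · apply Nat.eq_of_mul_eq_mul_left hm0
    rw [f3, ← hr0]
    calc p ^ ((finrank ℤ (Additive (fixG σ)) + 1) * k) *
          Nat.card (powMonoidHom (p ^ k) : fixG σ →* fixG σ).ker
        = p ^ k * ((p ^ k) ^ finrank ℤ (Additive (fixG σ)) *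
            Nat.card (powMonoidHom (p ^ k) : fixG σ →* fixG σ).ker) := by
          rw [← pow_mul, ← mul_assoc, ← pow_add]
          congr 2
          ring
      _ = _ := by
        rw [← e3]
        ring

end Pool.Agent.Helper96.SDL.HER
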